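import Pool.Agent.N964.GV.Stm
import Pool.Agent.N157.GXK

/-!
# Project GV (helper964), part D: the final optimisation (helper424)

Adapted from `Pool/Agent/N157/GXK.lean` (helper157).
-/

set_option autoImplicit false

namespace Pool.Agent.N424.GVD

open Complex MeasureTheory Filter Topology
open Pool.Agent.Y23 (Lg)
open Pool.Agent.N964.MX (wt wt_nonneg wt_cont)
open Pool.Agent.N964.GV
open Pool.Agent.N157.GXK (int_bound2 seq_bd sym_all seq_small seq_tail final_bound)

lemma one_lt_log {x : ℝ} (hx : 3 ≤ x) : 1 < Real.log x := by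
  rw [Real.lt_log_iff_exp_lt (by linarith)]
  have := Real.exp_one_lt_d9
  linarith

theorem Qv_pos {E B x : ℝ} (hx : 3 ≤ x) : 0 < Qv E B x := by
  have h1 := one_lt_log hx
  have h3 : 0 < Real.log (Real.log x) := Real.log_pos h1
  unfold Qv
  exact mul_pos (Real.rpow_pos_of_pos (by linarith) _) (Real.rpow_pos_of_pos h3 _)

theorem Qv_mono {E B u x : ℝ} (hE : 0 ≤ E) (hB : 0 ≤ B) (hu : 3 ≤ u) (hux : u ≤ x) :
    Qv E B u ≤ Qv E B x := by
  have h1 := one_lt_log hu
  have h3 : 0 < Real.log (Real.log u) := Real.log_pos h1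
  have hL : Real.log u ≤ Real.log x := Real.log_le_log (by linarith) hux
  have hLL : Real.log (Real.log u) ≤ Real.log (Real.log x) := Real.log_le_log (by linarith) hL
  unfold Qv
  exact mul_le_mul (Real.rpow_le_rpow (by linarith) hL hE) (Real.rpow_le_rpow h3.le hLL hB)
    (Real.rpow_nonneg h3.le _) (Real.rpow_nonneg (by linarith) _)

/-- **GV/D** -/
theorem finv : S_finv := by
  intro k ν Bx g K δ0 hk hν0 hνk hBx hK hδ0 hδ04 M hM0 hMc hg hg2 hsm hmid htail
  obtain ⟨B0, hB01, hB0'⟩ := seq_bd 0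
  have hB0 : ∀ n : ℕ, (1 / Real.sqrt 2) ^ n * ((n : ℝ) + 1) ^ 2 ≤ B0 := by
    intro n
    have := hB0' n
    simpa using this
  have hB00 : 0 ≤ B0 := by linarith
  have hk0 : (1 : ℝ) ≤ k := by exact_mod_cast hk
  have hν1 : 0 < 1 + ν := by linarith
  obtain ⟨Ex, hEx⟩ : ∃ Ex : ℝ, Ex = ν / (1 + ν) := ⟨_, rfl⟩
  have hEx0 : 0 < Ex := by rw [hEx]; positivity
  obtain ⟨a, ha⟩ : ∃ a : ℝ, a = 1 / (1 + ν) := ⟨_, rfl⟩
  have ha0 : 0 < a := by rw [ha]; positivity
  have ha1 : a ≤ 1 := by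
    rw [ha, div_le_one hν1]
    linarith
  have haE : a * ν = Ex := by rw [ha, hEx]; ring
  have haE1 : 1 - a = Ex := by rw [ha, hEx]; field_simp; ring
  obtain ⟨q0, hq0⟩ : ∃ q0 : ℝ, q0 = Qv Ex Bx 3 := ⟨_, rfl⟩
  have hq00 : 0 < q0 := by rw [hq0]; exact Qv_pos le_rfl
  obtain ⟨κ, hκ⟩ : ∃ κ : ℝ, κ = 1 := ⟨_, rfl⟩
  have hκ0 : 0 ≤ κ := by rw [hκ]; norm_num
  set Ck : ℝ := 128 * ((k : ℝ) + 2) ^ 2 with hCk
  have hCk0 : 0 ≤ Ck := by positivity
  set Λ : ℝ := max (4 * ((k : ℝ) + 1) * ((k : ℝ) + 2)) (max ((1 + ν) / δ0) (K + 3)) with hΛ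
  have hΛ1 : 4 * ((k : ℝ) + 1) * ((k : ℝ) + 2) ≤ Λ := le_max_left _ _
  have hΛ2 : (1 + ν) / δ0 ≤ Λ := (le_max_left _ _).trans (le_max_right _ _)
  have hΛ3 : K + 3 ≤ Λ := (le_max_right _ _).trans (le_max_right _ _)
  set C2 := 2 * (10 * K) + 1 + (2 * (19 + K + B0 + Ck) + 16 * K + 16 + K * κ) with hC2
  have hC20 : 0 < C2 := by positivity
  have hexpΛ : 0 < Real.exp Λ := Real.exp_pos _
  refine ⟨C2 + (K + 3 / 2 * Real.exp Λ) / q0, by positivity, ?_⟩
  intro y hy
  have hy0 : 0 < y := by linarith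
  have hL1 : 1 < Real.log y := one_lt_log hy
  rw [← hEx]
  have hQq : q0 ≤ Qv Ex Bx y := by
    rw [hq0]
    exact Qv_mono hEx0.le (by linarith) le_rfl hy
  have hQdef : Qv Ex Bx y = Real.log y ^ Ex * Real.log (Real.log y) ^ Bx := rfl
  set L := Real.log y with hL
  set LL := Real.log L with hLL
  have hL0 : 0 < L := by linarith
  have hLL0 : 0 < LL := Real.log_pos hL1
  have hexpLL : L = Real.exp LL := (Real.exp_log hL0).symm
  set Q := Qv Ex Bx y with hQ
  have hQ0 : 0 < Q := by linarith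
  have hsy : Real.sqrt y = Real.exp (L / 2) := by
    rw [Real.sqrt_eq_rpow, Real.rpow_def_of_pos hy0]
    congr 1
    ring
  have hsy0 : 0 ≤ Real.sqrt y := Real.sqrt_nonneg y
  rcases lt_or_ge LL Λ with hcase | hcase
  · -- small `y`
    have h1 := hg2 y (by linarith)
    have h2 : L ≤ Real.exp Λ := by
      rw [hexpLL]
      exact Real.exp_le_exp.2 hcase.le
    have h3 : K * y ^ 2 ≤ Real.sqrt y * Real.exp (K + 3 / 2 * Real.exp Λ) := by
      have h4 : y = Real.exp L := (Real.exp_log hy0).symm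
      have h5 : K * y ^ 2 ≤ Real.exp K * Real.exp (2 * L) := by
        have h6 : y ^ 2 = Real.exp (2 * L) := by
          rw [h4, ← Real.exp_nat_mul]
          norm_num
        rw [h6]
        have h7 := Real.add_one_le_exp K
        exact mul_le_mul_of_nonneg_right (by linarith) (Real.exp_pos (2 * L)).le
      refine h5.trans ?_
      rw [hsy, ← Real.exp_add, ← Real.exp_add]
      apply Real.exp_le_exp.2
      linarith
    refine h1.trans (h3.trans ?_)
    apply mul_le_mul_of_nonneg_left _ hsy0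
    apply Real.exp_le_exp.2
    have h4 : (K + 3 / 2 * Real.exp Λ) / q0 * q0 ≤ (K + 3 / 2 * Real.exp Λ) / q0 * Q :=
      mul_le_mul_of_nonneg_left hQq (by positivity)
    rw [div_mul_cancel₀ _ hq00.ne'] at h4
    have h5 : 0 ≤ C2 * Q := by positivity
    linarith
  · -- large `y`
    have hLL1 : 1 ≤ LL := by linarith
    have hLE : 1 ≤ L ^ Ex := Real.one_le_rpow hL1.le hEx0.le
    have hLLB : LL ≤ LL ^ Bx := by
      calc LL = LL ^ (1 : ℝ) := (Real.rpow_one _).symm
        _ ≤ LL ^ Bx := Real.rpow_le_rpow_of_exponent_le hLL1 hBx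
    have hPQ : L ^ Ex ≤ Q := by
      rw [hQdef]
      exact le_mul_of_one_le_right (by linarith) (by linarith)
    have hLLQ' : LL ≤ Q := by
      rw [hQdef]
      calc LL ≤ 1 * LL ^ Bx := by linarith
        _ ≤ L ^ Ex * LL ^ Bx := mul_le_mul_of_nonneg_right hLE (by linarith)
    have hLLQ : LL ≤ 8 * Q := by linarith
    have hQ2 : 1 / 2 ≤ Q := by linarith
    set u := Real.exp (a * LL) with hu
    have hu0 : 0 < u := Real.exp_pos _
    have huL : u = L ^ a := by
      rw [hu, Real.rpow_def_of_pos hL0, mul_comm]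
    set δ := 1 / u with hδ
    have hδp : 0 < δ := by positivity
    have hδδ0 : δ ≤ δ0 := by
      rw [hδ, div_le_iff₀ hu0]
      have h1 : 1 / δ0 ≤ a * LL := by
        have h2 : (1 + ν) / δ0 ≤ LL := hΛ2.trans hcase
        have h3 : a * ((1 + ν) / δ0) ≤ a * LL := mul_le_mul_of_nonneg_left h2 ha0.le
        have h4 : a * ((1 + ν) / δ0) = 1 / δ0 := by rw [ha]; field_simp
        rwa [h4] at h3
      have h2 : a * LL ≤ u := by
        have := Real.add_one_le_exp (a * LL)
        linarith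
      have : 1 / δ0 ≤ u := h1.trans h2
      rw [div_le_iff₀ hδ0] at this
      linarith
    have hδ4 : δ ≤ 1 / 4 := hδδ0.trans hδ04
    have hu1 : 1 / δ = u := by rw [hδ, one_div_one_div]
    have hm : Real.log (1 / δ) = a * LL := by
      rw [hu1, hu, Real.log_exp]
    have hm2' : Real.log (1 / δ) ≤ LL := by
      rw [hm]
      exact mul_le_of_le_one_left hLL0.le ha1
    have hm2 : Real.log (1 / δ) ≤ 2 * LL := by linarith
    have hm0 : 0 < Real.log (1 / δ) := by rw [hm]; positivity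
    -- `y ^ δ`
    have hδL : δ * L = L ^ Ex := by
      rw [hδ, huL, ← haE1, Real.rpow_sub hL0, Real.rpow_one]
      ring
    -- `Xv`
    have hX0 : 0 ≤ Xv ν Bx δ := by
      unfold Xv
      positivity
    have hX : Xv ν Bx δ ≤ κ * Q := by
      unfold Xv
      rw [hu1, hκ, one_mul, hQdef, huL, ← Real.rpow_mul hL0.le, haE, ← huL, ← hu1]
      exact mul_le_mul_of_nonneg_left (Real.rpow_le_rpow hm0.le hm2' (by linarith)) (by linarith)
    -- `1 / δ ^ (k + 2)`
    have hU : 1 / δ ^ (k + 2) = u ^ (k + 2) := by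
      have hδu : δ ^ (k + 2) * u ^ (k + 2) = 1 := by
        rw [← mul_pow, hδ, one_div_mul_cancel hu0.ne', one_pow]
      rw [div_eq_iff (by positivity)]
      linarith
    have hU3' : 4 * ((k : ℝ) + 2) * L ≤ 1 / δ ^ (k + 2) := by
      have hk1 : (0 : ℝ) < (k : ℝ) + 1 := by positivity
      have e1 : u ^ (k + 2) = Real.exp (((k : ℝ) + 2) * (a * LL)) := by
        rw [hu, ← Real.exp_nat_mul]
        push_cast
        rfl
      have h1 : LL + LL / ((k : ℝ) + 1) ≤ ((k : ℝ) + 2) * (a * LL) := by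
        have h2 : 1 / ((k : ℝ) + 1) ≤ a := by
          rw [ha]
          exact one_div_le_one_div_of_le hν1 (by linarith)
        have h3 : LL + LL / ((k : ℝ) + 1) = ((k : ℝ) + 2) * (1 / ((k : ℝ) + 1) * LL) := by
          field_simp
          ring
        rw [h3]
        gcongr
      have h2 : 4 * ((k : ℝ) + 2) ≤ Real.exp (LL / ((k : ℝ) + 1)) := by
        have h3 : 4 * ((k : ℝ) + 2) ≤ LL / ((k : ℝ) + 1) := by
          rw [le_div_iff₀ hk1]
          have := hΛ1.trans hcase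
          linarith
        have := Real.add_one_le_exp (LL / ((k : ℝ) + 1))
        linarith
      rw [hU, e1]
      calc 4 * ((k : ℝ) + 2) * L ≤ Real.exp (LL / ((k : ℝ) + 1)) * L :=
            mul_le_mul_of_nonneg_right h2 hL0.le
        _ = Real.exp (LL + LL / ((k : ℝ) + 1)) := by
            rw [Real.exp_add, ← hexpLL, mul_comm]
        _ ≤ _ := Real.exp_le_exp.2 h1
    have hUL : L ≤ 1 / δ ^ (k + 2) := by
      refine le_trans ?_ hU3'
      exact le_mul_of_one_le_left hL0.le (by linarith)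
    have hLLL : LL ≤ L := by
      have := Real.log_le_sub_one_of_pos hL0
      linarith
    have hU2 : K + 3 ≤ Real.exp (1 / δ ^ (k + 2)) := by
      have h1 : K + 3 ≤ LL := hΛ3.trans hcase
      have h3 := Real.add_one_le_exp (1 / δ ^ (k + 2))
      linarith
    have hU3 : 4 * ((k : ℝ) + 2) * Real.log y ≤ 1 / δ ^ (k + 2) := hU3'
    -- the function `mm`
    set E := 2 * Real.exp (K * (1 + Real.log (1 / δ))) + 2 * Real.exp (K * Xv ν Bx δ) with hE
    have hE0 : 0 ≤ E := by positivity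
    set B := E * (16 * L ^ 2 + B0) + Ck with hB
    have hB00' : 0 ≤ B := by rw [hB]; positivity
    have hθ : 0 ≤ 1 - 1 / ((k : ℝ) + 2) := by
      have : 1 / ((k : ℝ) + 2) ≤ 1 := by
        rw [div_le_one (by positivity)]
        linarith
      linarith
    have hmm := sym_all (f := M δ) (hMc δ hδp hδ4) (hM0 δ) (K := K)
      (E := Real.exp (K * (1 + Real.log (1 / δ)))) (E2 := Real.exp (K * Xv ν Bx δ)) (U := 1 / δ ^ (k + 2))
      (θ := 1 - 1 / ((k : ℝ) + 2)) hK hθ (Real.exp_pos _).le (Real.exp_pos _).le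
      (fun t ht => hsm δ t hδp hδδ0 ht) (fun T h1 h2 => hmid δ T hδp hδδ0 h1 h2)
      (fun t h1 h2 => htail δ t hδp hδδ0 h1 h2) hU2
    have hgy := hg δ y hδp hδ4 (by linarith)
    have hBn : ∀ n : ℕ, min 1 (y / 2 ^ n) * (E + if Lg (2 ^ (n + 1)) ≤ 1 / δ ^ (k + 2) then 0 else
        2 * ((2 : ℝ) ^ (n + 1)) ^ (1 - 1 / ((k : ℝ) + 2))) * ((n : ℝ) + 1) ^ 2 ≤ B := by
      intro n
      have h1 := seq_small hB0 hy n
      have hmin : 0 ≤ min 1 (y / 2 ^ n) := le_min zero_le_one (by positivity)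
      have h2 : E * (min 1 (y / 2 ^ n) * ((n : ℝ) + 1) ^ 2) ≤ E * (16 * L ^ 2 + B0) :=
        mul_le_mul_of_nonneg_left h1 hE0
      split_ifs with hc
      · rw [add_zero, hB]
        have e : min 1 (y / 2 ^ n) * E * ((n : ℝ) + 1) ^ 2 =
          E * (min 1 (y / 2 ^ n) * ((n : ℝ) + 1) ^ 2) := by ring
        rw [e]
        linarith
      · rw [not_le] at hc
        have h3 := seq_tail hy hU3 n hc
        rw [hB]
        have e : min 1 (y / 2 ^ n) * (E + 2 * ((2 : ℝ) ^ (n + 1)) ^ (1 - 1 / ((k : ℝ) + 2))) *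
            ((n : ℝ) + 1) ^ 2 = E * (min 1 (y / 2 ^ n) * ((n : ℝ) + 1) ^ 2) +
            min 1 (y / 2 ^ n) * (2 * ((2 : ℝ) ^ (n + 1)) ^ (1 - 1 / ((k : ℝ) + 2))) *
            ((n : ℝ) + 1) ^ 2 := by ring
        rw [e]
        linarith
    have hint := int_bound2 (g := M δ) (hMc δ hδp hδ4) (hM0 δ) (y := y) (B := B)
      (mm := fun T => E + if Lg T ≤ 1 / δ ^ (k + 2) then 0 else
        2 * T ^ (1 - 1 / ((k : ℝ) + 2))) hy hgy.1 (fun T hT => hmm T hT) hBn (by
        have h1 : Lg 1 ≤ 1 / δ ^ (k + 2) := by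
          have h2 : Lg 1 ≤ 2 := by
            unfold Lg
            have h3 : Real.log (3 + |1|) = 2 * Real.log 2 := by
              have : (3 : ℝ) + |1| = 2 ^ 2 := by norm_num
              rw [this, Real.log_pow]
              norm_num
            rw [h3]
            have := Real.log_two_lt_d9
            linarith
          have h3 : 12 ≤ LL := by
            have h4 : 4 * ((k : ℝ) + 1) * ((k : ℝ) + 2) ≤ LL := hΛ1.trans hcase
            nlinarith
          linarith
        rw [if_pos h1, add_zero, hB]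
        have h5 : 1 ≤ 16 * L ^ 2 + B0 := by
          have := one_le_pow₀ (n := 2) hL1.le
          linarith
        have h6 := le_mul_of_one_le_right hE0 h5
        linarith)
    have hpow : y ^ (1 / 2 + δ) ≤ Real.sqrt y * Real.exp Q := by
      rw [Real.rpow_add hy0, ← Real.sqrt_eq_rpow]
      refine mul_le_mul_of_nonneg_left ?_ hsy0
      rw [Real.rpow_def_of_pos hy0, ← hL, mul_comm, hδL]
      exact Real.exp_le_exp.2 hPQ
    have hfin := final_bound (K := K) (Q := Q) (LL := LL) (L := L) (B0 := B0) (Ck := Ck) (κ := κ) (E := E)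
      (m := Real.log (1 / δ)) (X := Xv ν Bx δ) (y := y) (s := Real.sqrt y) (B := B) hK hQ2 hLL1 hLLQ hexpLL
      hB00 hCk0 hκ0 hm2 hm0.le hX hX0 hE hB hsy0
    refine hgy.2.trans ?_
    have hy1 : 0 ≤ y ^ (1 / 2 + δ) := Real.rpow_nonneg hy0.le _
    have h7 : K * y ^ (1 / 2 + δ) * (∫ t : ℝ, M δ t * wt y t) ≤
        K * (Real.sqrt y * Real.exp Q) * (9 * B) := by
      calc K * y ^ (1 / 2 + δ) * (∫ t : ℝ, M δ t * wt y t) ≤ K * y ^ (1 / 2 + δ) * (9 * B) := by
            apply mul_le_mul_of_nonneg_left hint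
            positivity
        _ ≤ _ := by
            apply mul_le_mul_of_nonneg_right _ (by positivity)
            apply mul_le_mul_of_nonneg_left hpow (by linarith)
    refine le_trans (add_le_add le_rfl h7) (hfin.trans ?_)
    apply mul_le_mul_of_nonneg_left _ hsy0
    apply Real.exp_le_exp.2
    rw [← hC2]
    have : 0 ≤ (K + 3 / 2 * Real.exp Λ) / q0 * Q := by positivity
    linarith

end Pool.Agent.N424.GVD
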