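import Pool.Agent.N964.GV.Stm
import Pool.Agent.N776.GXPS

/-!
# Project GV (helper964), part E: partial summation (helper424)

Adapted from `Pool/Agent/N776/GXPS.lean` (helper776) and `Pool/Agent/N964/GW/Fin.lean` (helper964).
-/

set_option autoImplicit false
set_option linter.all false

namespace Pool.Agent.N424.GV

open Complex
open Pool.Agent.N964.GV
open Pool.Agent.N964.GW (sh)
open Pool.Agent.N776.GXPS (one_lt_log3 ll3 one_lt_log abel)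

lemma rpow_le {κ : ℝ} (h1 : κ ≤ 1 / 2) {n : ℕ} (hn : 1 ≤ n) :
    ((n : ℝ) ^ (-κ) - ((n + 1 : ℕ) : ℝ) ^ (-κ)) * (n : ℝ) ^ (1 / 2 + κ) ≤ Real.sqrt ((n + 1 : ℕ) : ℝ) - Real.sqrt n := by
  have hn0 : (0 : ℝ) < n := by exact_mod_cast hn
  have hm0 : (0 : ℝ) < ((n + 1 : ℕ) : ℝ) := by positivity
  have e1 : (n : ℝ) ^ (-κ) * (n : ℝ) ^ (1 / 2 + κ) = Real.sqrt n := by
    rw [← Real.rpow_add hn0, Real.sqrt_eq_rpow]
    congr 1
    ring
  have e2 : ((n + 1 : ℕ) : ℝ) ^ (-κ) * (n : ℝ) ^ (1 / 2 + κ) =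
      Real.sqrt n * ((n : ℝ) / ((n + 1 : ℕ) : ℝ)) ^ κ := by
    rw [Real.div_rpow hn0.le hm0.le, Real.rpow_neg hm0.le, Real.rpow_add hn0, Real.sqrt_eq_rpow]
    field_simp
  have e3 : ((n : ℝ) / ((n + 1 : ℕ) : ℝ)) ^ (1 / 2 : ℝ) ≤ ((n : ℝ) / ((n + 1 : ℕ) : ℝ)) ^ κ := by
    refine Real.rpow_le_rpow_of_exponent_ge (by positivity) ?_ h1
    rw [div_le_one hm0]
    push_cast
    linarith
  rw [← Real.sqrt_eq_rpow, Real.sqrt_div hn0.le] at e3
  rw [sub_mul, e1, e2]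
  obtain ⟨x, hx⟩ : ∃ x : ℝ, x = Real.sqrt n := ⟨_, rfl⟩
  obtain ⟨y, hy⟩ : ∃ y : ℝ, y = Real.sqrt ((n + 1 : ℕ) : ℝ) := ⟨_, rfl⟩
  rw [← hx, ← hy] at e3 ⊢
  have hx0 : 0 < x := by rw [hx]; exact Real.sqrt_pos.2 hn0
  have hy0 : 0 < y := by rw [hy]; exact Real.sqrt_pos.2 hm0
  have h2 : x * (x / y) ≤ x * (((n : ℝ) / ((n + 1 : ℕ) : ℝ)) ^ κ) := mul_le_mul_of_nonneg_left e3 hx0.le
  have h3 : x - x * (x / y) ≤ y - x := by
    have h4 : x * (x / y) = x ^ 2 / y := by ring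
    have h5 : 2 * x - y ≤ x ^ 2 / y := by
      rw [le_div_iff₀ hy0]
      nlinarith [sq_nonneg (x - y)]
    rw [h4]
    linarith
  linarith

lemma sum_le (κ : ℝ) (h0 : 0 ≤ κ) (h1 : κ ≤ 1 / 2) : ∀ N : ℕ, 1 ≤ N →
    ∑ n ∈ Finset.Ico 1 N, |((n + 1 : ℕ) : ℝ) ^ (-κ) - (n : ℝ) ^ (-κ)| * (n : ℝ) ^ (1 / 2 + κ) ≤ Real.sqrt N := by
  intro N hN
  have h2 : ∑ n ∈ Finset.Ico 1 N, |((n + 1 : ℕ) : ℝ) ^ (-κ) - (n : ℝ) ^ (-κ)| * (n : ℝ) ^ (1 / 2 + κ) ≤
      ∑ n ∈ Finset.Ico 1 N, (Real.sqrt ((n + 1 : ℕ) : ℝ) - Real.sqrt (n : ℝ)) := by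
    refine Finset.sum_le_sum fun n hn => ?_
    rw [Finset.mem_Ico] at hn
    have hn0 : (0 : ℝ) < n := by exact_mod_cast hn.1
    have h3 : ((n + 1 : ℕ) : ℝ) ^ (-κ) ≤ (n : ℝ) ^ (-κ) := by
      refine Real.rpow_le_rpow_of_nonpos hn0 ?_ (by linarith)
      push_cast
      linarith
    rw [abs_sub_comm, abs_of_nonneg (by linarith)]
    exact rpow_le h1 hn.1
  refine h2.trans ?_
  rw [Finset.sum_Ico_eq_sum_range]
  have h3 : ∀ m : ℕ, ∑ i ∈ Finset.range m, (Real.sqrt ((1 + i + 1 : ℕ) : ℝ) - Real.sqrt ((1 + i : ℕ) : ℝ)) =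
      Real.sqrt ((1 + m : ℕ) : ℝ) - Real.sqrt ((1 : ℕ) : ℝ) := by
    intro m
    induction m with
    | zero => simp
    | succ m ih =>
      rw [Finset.sum_range_succ, ih]
      have : (1 + m + 1 : ℕ) = 1 + (m + 1) := by ring
      rw [this]
      ring
  rw [h3 (N - 1)]
  have h4 : (1 + (N - 1) : ℕ) = N := by omega
  rw [h4]
  have := Real.sqrt_nonneg ((1 : ℕ) : ℝ)
  linarith

theorem Qv_pos {E B x : ℝ} (hx : 3 ≤ x) : 0 < Qv E B x := by
  have h1 := one_lt_log hx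
  have h3 : 0 < Real.log (Real.log x) := Real.log_pos h1
  unfold Qv
  exact mul_pos (Real.rpow_pos_of_pos (by linarith) _) (Real.rpow_pos_of_pos h3 _)

theorem Qv_mono {E B u x : ℝ} (hE : 0 ≤ E) (hB : 0 ≤ B) (hu : 3 ≤ u) (hux : u ≤ x) :
    Qv E B u ≤ Qv E B x := by
  have h1 := one_lt_log hu
  have h3 : 0 < Real.log (Real.log u) := Real.log_pos h1
  have hL : Real.log u ≤ Real.log x := Real.log_le_log (by linarith) hux
  have hLL : Real.log (Real.log u) ≤ Real.log (Real.log x) := Real.log_le_log (by linarith) hL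
  unfold Qv
  exact mul_le_mul (Real.rpow_le_rpow (by linarith) hL hE) (Real.rpow_le_rpow h3.le hLL hB)
    (Real.rpow_nonneg h3.le _) (Real.rpow_nonneg (by linarith) _)

/-- general transfer -/
theorem gen {Ex Bx : ℝ} (hEx : 0 ≤ Ex) (hBx : 0 ≤ Bx) (b : ℕ → ℂ) (w : ℕ → ℝ) (φ ψ : ℝ → ℝ)
    (hφ : ∀ n : ℕ, 1 ≤ n → 1 ≤ φ n) (hψ : ∀ x : ℝ, 3 ≤ x → ψ ⌊x⌋₊ ≤ ψ x)
    (hψ0 : ∀ x : ℝ, 3 ≤ x → 0 ≤ ψ x)
    (hw : ∀ N : ℕ, 1 ≤ N → |w N| * φ N + ∑ n ∈ Finset.Ico 1 N, |w (n + 1) - w n| * φ n ≤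
      2 * ψ N)
    (hB : ∃ C : ℝ, ∀ x : ℝ, 3 ≤ x →
      ‖∑ n ∈ Finset.Icc 1 ⌊x⌋₊, b n‖ ≤ φ x * Real.exp (C * Qv Ex Bx x)) :
    ∃ C : ℝ, ∀ x : ℝ, 3 ≤ x →
      ‖∑ n ∈ Finset.Icc 1 ⌊x⌋₊, ((w n : ℝ) : ℂ) * b n‖ ≤ ψ x * Real.exp (C * Qv Ex Bx x) := by
  obtain ⟨C, hC⟩ := hB
  obtain ⟨q, hq⟩ : ∃ q : ℝ, q = Qv Ex Bx 3 := ⟨_, rfl⟩
  have hq0 : 0 < q := by rw [hq]; exact Qv_pos le_rfl
  obtain ⟨D, hD⟩ : ∃ D : ℝ, D = ‖∑ n ∈ Finset.Icc 1 1, b n‖ + ‖∑ n ∈ Finset.Icc 1 2, b n‖ :=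
    ⟨_, rfl⟩
  have hD0 : 0 ≤ D := by rw [hD]; positivity
  refine ⟨|C| + Real.log (2 * (1 + D)) / q, fun x hx => ?_⟩
  have hQ : q ≤ Qv Ex Bx x := by rw [hq]; exact Qv_mono hEx hBx le_rfl hx
  have hQ0 : 0 < Qv Ex Bx x := Qv_pos hx
  obtain ⟨N, hN⟩ : ∃ N : ℕ, N = ⌊x⌋₊ := ⟨_, rfl⟩
  have hN3 : 3 ≤ N := by
    rw [hN]; exact Nat.le_floor (by exact_mod_cast hx)
  have hNx : (N : ℝ) ≤ x := by rw [hN]; exact Nat.floor_le (by linarith)
  obtain ⟨E, hE⟩ : ∃ E : ℝ, E = (1 + D) * Real.exp (|C| * Qv Ex Bx x) := ⟨_, rfl⟩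
  have hexp1 : 1 ≤ Real.exp (|C| * Qv Ex Bx x) := Real.one_le_exp (by positivity)
  have hE0 : 0 ≤ E := by rw [hE]; positivity
  have hDE : D ≤ E := by
    rw [hE]
    nlinarith
  have hbd : ∀ n : ℕ, 1 ≤ n → n ≤ N → ‖∑ m ∈ Finset.Icc 1 n, b m‖ ≤ E * φ n := by
    intro n hn hnN
    have hφn := hφ n hn
    rcases Nat.lt_or_ge n 3 with h3 | h3
    · have h4 : ‖∑ m ∈ Finset.Icc 1 n, b m‖ ≤ D := by
        have : n = 1 ∨ n = 2 := by omega
        rcases this with rfl | rfl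
        · rw [hD]; linarith [norm_nonneg (∑ n ∈ Finset.Icc 1 2, b n)]
        · rw [hD]; linarith [norm_nonneg (∑ n ∈ Finset.Icc 1 1, b n)]
      nlinarith
    · have h3' : (3 : ℝ) ≤ n := by exact_mod_cast h3
      have h4 := hC n h3'
      rw [Nat.floor_natCast] at h4
      have h5 : C * Qv Ex Bx n ≤ |C| * Qv Ex Bx x := by
        have h6 := Qv_mono hEx hBx h3' (le_trans (by exact_mod_cast hnN) hNx)
        have h7 : 0 < Qv Ex Bx (n : ℝ) := Qv_pos h3'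
        calc C * Qv Ex Bx n ≤ |C| * Qv Ex Bx n :=
              mul_le_mul_of_nonneg_right (le_abs_self C) (by linarith)
          _ ≤ |C| * Qv Ex Bx x := mul_le_mul_of_nonneg_left h6 (abs_nonneg C)
      have h6 : Real.exp (C * Qv Ex Bx n) ≤ E := by
        rw [hE]
        have := Real.exp_le_exp.2 h5
        nlinarith
      calc _ ≤ φ n * Real.exp (C * Qv Ex Bx n) := h4
        _ ≤ φ n * E := mul_le_mul_of_nonneg_left h6 (by linarith)
        _ = _ := by ring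
  have hmain : ‖∑ n ∈ Finset.Icc 1 N, ((w n : ℝ) : ℂ) * b n‖ ≤ E * (2 * ψ N) := by
    rw [abel]
    calc _ ≤ ‖((w N : ℝ) : ℂ) * ∑ n ∈ Finset.Icc 1 N, b n‖ +
          ‖∑ n ∈ Finset.Ico 1 N, (((w (n + 1) : ℝ) : ℂ) - ((w n : ℝ) : ℂ)) *
            ∑ m ∈ Finset.Icc 1 n, b m‖ := norm_sub_le _ _
      _ ≤ |w N| * (E * φ N) + ∑ n ∈ Finset.Ico 1 N, |w (n + 1) - w n| * (E * φ n) := by
          apply add_le_add
          · rw [norm_mul, Complex.norm_real, Real.norm_eq_abs]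
            exact mul_le_mul_of_nonneg_left (hbd N (by omega) le_rfl) (abs_nonneg _)
          · refine (norm_sum_le _ _).trans (Finset.sum_le_sum fun n hn => ?_)
            rw [Finset.mem_Ico] at hn
            rw [norm_mul, ← Complex.ofReal_sub, Complex.norm_real, Real.norm_eq_abs]
            exact mul_le_mul_of_nonneg_left (hbd n hn.1 hn.2.le) (abs_nonneg _)
      _ = E * (|w N| * φ N + ∑ n ∈ Finset.Ico 1 N, |w (n + 1) - w n| * φ n) := by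
          rw [mul_add, Finset.mul_sum]
          congr 1
          · ring
          · exact Finset.sum_congr rfl fun n _ => by ring
      _ ≤ E * (2 * ψ N) := mul_le_mul_of_nonneg_left (hw N (by omega)) hE0
  rw [← hN]
  refine hmain.trans ?_
  have h8 : ψ N ≤ ψ x := by rw [hN]; exact hψ x hx
  have h9 := hψ0 x hx
  have h10 : 2 * (1 + D) ≤ Real.exp (Real.log (2 * (1 + D)) / q * Qv Ex Bx x) := by
    have h11 : 0 ≤ Real.log (2 * (1 + D)) := Real.log_nonneg (by linarith)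
    calc 2 * (1 + D) = Real.exp (Real.log (2 * (1 + D))) := by
          rw [Real.exp_log (by positivity)]
      _ ≤ _ := by
          apply Real.exp_le_exp.2
          calc Real.log (2 * (1 + D)) = Real.log (2 * (1 + D)) / q * q := by field_simp
            _ ≤ _ := mul_le_mul_of_nonneg_left hQ (by positivity)
  calc E * (2 * ψ N) ≤ E * (2 * ψ x) := by
        apply mul_le_mul_of_nonneg_left _ hE0
        linarith
    _ = ψ x * (2 * (1 + D) * Real.exp (|C| * Qv Ex Bx x)) := by rw [hE]; ring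
    _ ≤ ψ x * (Real.exp (Real.log (2 * (1 + D)) / q * Qv Ex Bx x) *
          Real.exp (|C| * Qv Ex Bx x)) := by
        apply mul_le_mul_of_nonneg_left _ h9
        exact mul_le_mul_of_nonneg_right h10 (Real.exp_pos _).le
    _ = _ := by
        rw [← Real.exp_add]
        congr 2
        ring

/-- **GV/E** -/
theorem pstv : S_pstv := by
  intro κ E B b h0 h1 hE _ hB
  have hE0 : 0 ≤ E := hE.le
  have hB0 : 0 ≤ B := by linarith
  have hsh : ∀ n : ℕ, sh κ b n = (((n : ℝ) ^ (-κ) : ℝ) : ℂ) * b n := by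
    intro n
    unfold sh
    rw [mul_comm, Complex.ofReal_cpow (Nat.cast_nonneg n)]
    push_cast
    rfl
  constructor
  · intro h
    have key := gen hE0 hB0 (sh κ b) (fun n => (n : ℝ) ^ κ) Real.sqrt (fun x => x ^ (1 / 2 + κ)) ?_ ?_ ?_ ?_ h
    · obtain ⟨C, hC⟩ := key
      refine ⟨C, fun x hx => ?_⟩
      have h1 := hC x hx
      have h2 : ∑ n ∈ Finset.Icc 1 ⌊x⌋₊, (((n : ℝ) ^ κ : ℝ) : ℂ) * sh κ b n = ∑ n ∈ Finset.Icc 1 ⌊x⌋₊, b n := by
        refine Finset.sum_congr rfl fun n hn => ?_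
        rw [Finset.mem_Icc] at hn
        have hn0 : (0 : ℝ) < n := by exact_mod_cast hn.1
        rw [hsh, ← mul_assoc, ← Complex.ofReal_mul, ← Real.rpow_add hn0, add_neg_cancel, Real.rpow_zero,
          Complex.ofReal_one, one_mul]
      rwa [h2] at h1
    · intro n hn
      rw [Real.one_le_sqrt]
      exact_mod_cast hn
    · intro x hx
      exact Real.rpow_le_rpow (Nat.cast_nonneg _) (Nat.floor_le (by linarith)) (by linarith)
    · intro x hx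
      positivity
    · intro N hN
      have hN0 : (0 : ℝ) < N := by exact_mod_cast hN
      have e1 : |(N : ℝ) ^ κ| * Real.sqrt N = (N : ℝ) ^ (1 / 2 + κ) := by
        rw [abs_of_nonneg (by positivity), Real.sqrt_eq_rpow, ← Real.rpow_add hN0]
        congr 1
        ring
      have e2 : ∑ n ∈ Finset.Ico 1 N, |((n + 1 : ℕ) : ℝ) ^ κ - (n : ℝ) ^ κ| * Real.sqrt n ≤
          ∑ n ∈ Finset.Ico 1 N, (((n + 1 : ℕ) : ℝ) ^ κ - (n : ℝ) ^ κ) * Real.sqrt N := by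
        refine Finset.sum_le_sum fun n hn => ?_
        rw [Finset.mem_Ico] at hn
        have h3 : (n : ℝ) ^ κ ≤ ((n + 1 : ℕ) : ℝ) ^ κ :=
          Real.rpow_le_rpow (Nat.cast_nonneg _) (by push_cast; linarith) h0
        rw [abs_of_nonneg (by linarith)]
        refine mul_le_mul_of_nonneg_left (Real.sqrt_le_sqrt ?_) (by linarith)
        exact_mod_cast hn.2.le
      have e3 : ∑ n ∈ Finset.Ico 1 N, (((n + 1 : ℕ) : ℝ) ^ κ - (n : ℝ) ^ κ) * Real.sqrt N ≤ (N : ℝ) ^ (1 / 2 + κ) := by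
        rw [← Finset.sum_mul, Finset.sum_Ico_eq_sum_range]
        have h3 : ∀ m : ℕ, ∑ i ∈ Finset.range m, (((1 + i + 1 : ℕ) : ℝ) ^ κ - ((1 + i : ℕ) : ℝ) ^ κ) =
            ((1 + m : ℕ) : ℝ) ^ κ - ((1 : ℕ) : ℝ) ^ κ := by
          intro m
          induction m with
          | zero => simp
          | succ m ih =>
            rw [Finset.sum_range_succ, ih]
            have : (1 + m + 1 : ℕ) = 1 + (m + 1) := by ring
            rw [this]
            ring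
        rw [h3 (N - 1)]
        have h4 : (1 + (N - 1) : ℕ) = N := by omega
        rw [h4, ← e1, abs_of_nonneg (by positivity)]
        refine mul_le_mul_of_nonneg_right ?_ (Real.sqrt_nonneg _)
        have : 0 ≤ ((1 : ℕ) : ℝ) ^ κ := by positivity
        linarith
      have e4 : |(N : ℝ) ^ κ| * Real.sqrt N + ∑ n ∈ Finset.Ico 1 N, |((n + 1 : ℕ) : ℝ) ^ κ - (n : ℝ) ^ κ| * Real.sqrt n ≤
          2 * (N : ℝ) ^ (1 / 2 + κ) := by
        rw [e1]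
        linarith
      exact e4
  · intro h
    have key := gen hE0 hB0 b (fun n => (n : ℝ) ^ (-κ)) (fun x => x ^ (1 / 2 + κ)) Real.sqrt ?_ ?_ ?_ ?_ h
    · obtain ⟨C, hC⟩ := key
      refine ⟨C, fun x hx => ?_⟩
      have h1 := hC x hx
      simp_rw [hsh]
      exact h1
    · intro n hn
      exact Real.one_le_rpow (by exact_mod_cast hn) (by linarith)
    · intro x hx
      exact Real.sqrt_le_sqrt (Nat.floor_le (by linarith))
    · intro x hx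
      exact Real.sqrt_nonneg _
    · intro N hN
      have hN0 : (0 : ℝ) < N := by exact_mod_cast hN
      have e1 : |(N : ℝ) ^ (-κ)| * (N : ℝ) ^ (1 / 2 + κ) = Real.sqrt N := by
        rw [abs_of_nonneg (by positivity), Real.sqrt_eq_rpow, ← Real.rpow_add hN0]
        congr 1
        ring
      have e2 := sum_le κ h0 h1 N hN
      have e4 : |(N : ℝ) ^ (-κ)| * (N : ℝ) ^ (1 / 2 + κ) + ∑ n ∈ Finset.Ico 1 N,
          |((n + 1 : ℕ) : ℝ) ^ (-κ) - (n : ℝ) ^ (-κ)| * (n : ℝ) ^ (1 / 2 + κ) ≤ 2 * Real.sqrt N := by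
        rw [e1]
        linarith
      exact e4

end Pool.Agent.N424.GV
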